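import Pool.Agent.helper19.FK.Spec
import Pool.Agent.helper77.HF.GEZ

/-!
# Row `fk:LOS` (MP_bf63dc_nt, project FK): one far translation with low windows
-/

set_option autoImplicit false

namespace Pool.Agent.FK

open Finset Pool.Agent.AT
open Pool.Agent.HF (cz Om GEZ)

theorem LOS : LOS_stmt := by
  classical
  intro k T R q S E N l₀ γ ε hε hγ0 hγ1 hR hq hE hN a b L C g ha hSq hqE hl0 hlow hhigh low hl
  obtain ⟨w, hw⟩ : ∃ w : Pool.Agent.SK.Path k T × Pool.Agent.SK.Path k T → ℤ, ∀ x, (L : ℤ) * (low x.1 - low x.2) - E * (b * R) = (q : ℤ) * w x := by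
    have hdv : ∀ x : Pool.Agent.SK.Path k T × Pool.Agent.SK.Path k T, (q : ℤ) ∣ (L : ℤ) * (low x.1 - low x.2) - E * (b * R) := fun x =>
      dvd_sub (Dvd.dvd.mul_left (dvd_sub (hl x.1) (hl x.2)) _) (Dvd.dvd.mul_right (Int.natCast_dvd_natCast.2 hqE) _)
    exact ⟨fun x => (hdv x).choose, fun x => (hdv x).choose_spec⟩
  obtain ⟨O, hO⟩ : ∃ O : Finset ℤ, O = ((univ : Finset (Pool.Agent.SK.Path k T)) ×ˢ (univ : Finset (Pool.Agent.SK.Path k T))).image w := ⟨_, rfl⟩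
  have hOc : #O ≤ N := by
    rw [hO]
    refine (card_image_le.trans (le_of_eq ?_)).trans hN
    rw [card_product, card_univ, Pool.Agent.SK.card_path]
  obtain ⟨B, hB⟩ : ∃ B : ℕ, ∀ (π π' : Pool.Agent.SK.Path k T), ∀ u < R, ∀ u' < R,
      |(L : ℤ) * (low π - low π') + (E : ℕ) * ((a : ℤ) * (u : ℕ) - b * (u' : ℕ))| < B := by
    obtain ⟨M, hM⟩ : ∃ M : ℤ, ∀ x : Pool.Agent.SK.Path k T × Pool.Agent.SK.Path k T, |(L : ℤ) * (low x.1 - low x.2)| ≤ M :=
      ⟨∑ x : Pool.Agent.SK.Path k T × Pool.Agent.SK.Path k T, |(L : ℤ) * (low x.1 - low x.2)|, fun x =>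
        single_le_sum (f := fun x : Pool.Agent.SK.Path k T × Pool.Agent.SK.Path k T => |(L : ℤ) * (low x.1 - low x.2)|) (fun x _ => abs_nonneg _) (mem_univ x)⟩
    refine ⟨(M + E * (a * R) + E * (b * R)).toNat + 1, fun π π' u hu u' hu' => ?_⟩
    have h1 := abs_le.1 (hM (π, π'))
    have h2 := Int.self_le_toNat (M + E * (a * R) + E * (b * R))
    have h4 : (E : ℤ) * ((a : ℤ) * (u : ℕ)) ≤ E * (a * R) := by
      exact_mod_cast Nat.mul_le_mul_left E (Nat.mul_le_mul_left a hu.le)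
    have h5 : (E : ℤ) * ((b : ℤ) * (u' : ℕ)) ≤ E * (b * R) := by
      exact_mod_cast Nat.mul_le_mul_left E (Nat.mul_le_mul_left b hu'.le)
    have h6 : 0 ≤ (E : ℤ) * ((a : ℤ) * (u : ℕ)) := by positivity
    have h7 : 0 ≤ (E : ℤ) * ((b : ℤ) * (u' : ℕ)) := by positivity
    have h3 : |(L : ℤ) * (low π - low π') + (E : ℕ) * ((a : ℤ) * (u : ℕ) - b * (u' : ℕ))| ≤ M + E * (a * R) + E * (b * R) := by
      rw [mul_sub (E : ℤ), abs_le]
      simp only at h1
      constructor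
      · linarith [h1.1]
      · linarith [h1.2]
    refine lt_of_le_of_lt h3 (lt_of_le_of_lt h2 ?_)
    push_cast
    exact lt_add_one _
  obtain ⟨Y, hY1, hY2, hY3⟩ := GEZ g (fun Y => ((S * L : ℕ) : ℤ) ∣ Y - C) q E N l₀ γ ε hq hE hqE
    (fun Y hY => by
      have e : Y + (q : ℤ) - C = (Y - C) + (q : ℤ) := by ring
      rw [e]
      exact dvd_add hY (Int.natCast_dvd_natCast.2 hSq)) hε hγ0 hγ1 hlow hhigh ((a + b) * R) (Nat.mul_pos (by omega) hR) hl0 O hOc B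
  obtain ⟨m, hm⟩ := hY1
  have hYm : Y = C + L * ((S : ℤ) * m) := by
    have h1 : Y = C + ((S * L : ℕ) : ℤ) * m := by linarith
    rw [h1]
    push_cast
    ring
  refine ⟨S * m, dvd_mul_right _ _, fun π π' => ⟨fun u hu u' hu' h0 => ?_, ?_⟩⟩
  · have h3 := hB π π' u hu u' hu'
    have h4 : Y = - ((L : ℤ) * (low π - low π') + (E : ℕ) * ((a : ℤ) * (u : ℕ) - b * (u' : ℕ))) := by
      rw [hYm]
      linarith
    rw [h4, abs_neg] at hY2
    exact absurd h3 (not_lt.2 hY2)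
  · have hmem : w (π, π') ∈ O := by
      rw [hO]
      refine mem_image_of_mem _ ?_
      simp
    have e : C + L * (S * m + (low π - low π')) - (E : ℤ) * (b * R) = Y + (q : ℤ) * w (π, π') := by
      rw [← hw, hYm]
      ring
    rw [e]
    obtain ⟨-, h2⟩ := hY3 _ hmem
    push_cast at h2
    exact h2

end Pool.Agent.FK
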